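import Pool.Agent.Q231.LMD.Stubs

/-!
# Different vertices have different positions
-/

set_option autoImplicit false

namespace Pool.Agent.Q154.LMD

open Pool.Agent.Q231.LMD Pool.Agent.NPC Pool.Agent.NPC.Cnt Pool.Agent.H49R2.PC

theorem len27 : ∀ c : Fin 6, (offT.getD c.1 []).length ≤ 27 := by decide

theorem off_inj : ∀ c : Fin 6, ∀ c' : Fin 6, ∀ k : Fin 27, ∀ k' : Fin 27,
    k.1 < (offT.getD c.1 []).length → k'.1 < (offT.getD c'.1 []).length →
    ((((offT.getD c.1 []).getD k.1 (0, 0)).1 - ((offT.getD c'.1 []).getD k'.1 (0, 0)).1) % 100 = 0) →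
    ((((offT.getD c.1 []).getD k.1 (0, 0)).2 - ((offT.getD c'.1 []).getD k'.1 (0, 0)).2) % 100 = 0) →
    c.1 = c'.1 ∧ k.1 = k'.1 := by
  decide +kernel

theorem D3_ok : S_D3 := by
  intro u v hu hv h
  have hc : u % 6 < 6 := Nat.mod_lt _ (by norm_num)
  have hc' : v % 6 < 6 := Nat.mod_lt _ (by norm_num)
  have hk : (u / 6).unpair.2 < 27 := lt_of_lt_of_le hu (len27 ⟨u % 6, hc⟩)
  have hk' : (v / 6).unpair.2 < 27 := lt_of_lt_of_le hv (len27 ⟨v % 6, hc'⟩)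
  unfold zp at h
  rw [Prod.mk.injEq] at h
  obtain ⟨h1, h2⟩ := h
  have key := off_inj ⟨u % 6, hc⟩ ⟨v % 6, hc'⟩ ⟨(u / 6).unpair.2, hk⟩ ⟨(v / 6).unpair.2, hk'⟩ hu hv
    (by simp only; omega) (by simp only; omega)
  obtain ⟨hce, hke⟩ := key
  simp only at hce hke
  rw [hce, hke] at h1 h2
  have e1 : (u / 6).unpair.1.unpair.1 = (v / 6).unpair.1.unpair.1 := by omega
  have e2 : (u / 6).unpair.1.unpair.2 = (v / 6).unpair.1.unpair.2 := by omega
  have e3 : (u / 6).unpair.1 = (v / 6).unpair.1 := by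
    rw [← Nat.pair_unpair (u / 6).unpair.1, ← Nat.pair_unpair (v / 6).unpair.1, e1, e2]
  have e4 : u / 6 = v / 6 := by
    rw [← Nat.pair_unpair (u / 6), ← Nat.pair_unpair (v / 6), e3, hke]
  omega

end Pool.Agent.Q154.LMD
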