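import Pool.Agent.Q231.LMD.Stubs

/-!
# The local metric dimension as a minimum
-/

set_option autoImplicit false

namespace Pool.Agent.Q154.LMD

open Pool.Agent.Q231.LMD Pool.Agent.NPC Pool.Agent.NPC.Cnt Pool.Agent.H49R2.PC

theorem gen_all (G : Gr) (hG : IsGr G) : IsLocGen G G.1.toFinset := by
  refine ⟨fun w hw => List.mem_toFinset.1 hw, fun e he => ?_⟩
  obtain ⟨h1, _, h3⟩ := hG.2 e he
  refine ⟨e.1, List.mem_toFinset.2 h1, ?_⟩
  rw [SimpleGraph.edist_self]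
  intro h
  exact h3 (SimpleGraph.edist_eq_zero_iff.1 h.symm)

theorem N_ok : S_N := by
  intro G hG k
  have hne : {n | ∃ W : Finset ℕ, IsLocGen G W ∧ W.card = n}.Nonempty :=
    ⟨_, _, gen_all G hG, rfl⟩
  constructor
  · intro h
    obtain ⟨W, hW, hc⟩ := Nat.sInf_mem hne
    exact ⟨W, hW, by rw [hc]; exact h⟩
  · rintro ⟨W, hW, hc⟩
    exact le_trans (Nat.sInf_le ⟨W, hW, rfl⟩) hc

end Pool.Agent.Q154.LMD
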